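import Pool.Agent.N530.AXG.GenW
import Pool.Agent.N561.EK.StmX

/-!
# EKX/7: critical configurations and the complex volume

All edges have the potential `sg`; the general lemmas of `N561.G.Geo` and `N530.AXG` are used with
one kind of vertices.
-/

set_option autoImplicit false

namespace Pool.Agent.N765.EK

open Pool.Agent.N561
open Pool.Agent.N561.G
open Pool.Agent.N561.EK
open Pool.Agent.N530.AXG
open Pool.Agent.TH563.CV
open Pool.Agent.TH563.CU (Unq of_to)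
open Pool.Agent.TH563.UV
open Pool.Agent.TH563.UV.Arb
open Pool.Agent.TH563.V
open Pool.Agent.TH609.UV (fe VL vt_re vl_im shape_cases wt_eq vertex)
open Pool.Agent.W711.HT hiding XX gd
open Pool.Agent.W719.AR (Fl)
open Pool.Agent.W571.AR (eqn')
open scoped Real

/-- one kind of vertices -/
def kf0 : Bool → ℕ → ℤ → ℕ := fun _ _ _ => 0

/-- the parameter of an edge -/
noncomputable def e0 : ℕ → ℕ → ℂ → ℂ → ℂ := fun _ _ z' z => dst z' z

lemma ve_D1 {b : Bool} {a : ℤ} {z G : ℂ} (h : VE b a z G) : z ∈ D1 := by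
  cases b with
  | true =>
    rw [h.1 rfl]
    refine ⟨?_, ?_⟩ <;> norm_num
  | false =>
    obtain ⟨⟨h1, h2, -⟩, h3, -⟩ := h.2 rfl
    exact ⟨h1, by rw [abs_of_pos h3]; exact h2⟩

lemma ve_VL {b : Bool} {a : ℤ} {z G l : ℂ} (h : VE b a z G) (hG : G = -(1 / (2 * π)) * l) :
    VL b a z l := by
  refine ⟨h.1, fun hb => ?_⟩
  exact eqn' _ _ _ _ hG (h.2 hb).2.2

/-- the critical configurations are solutions -/
theorem inde (hS : EFE) : ∀ p : PB, CE p → p.rz ∈ D1 →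
    p.gs sg = -(1 / (2 * π)) * lgv kf0 e0 0 p ∧ hpv kf0 e0 0 p ∧ lcv kf0 e0 0 p ∧
      2 * π * (p.vl sg).re = hsv kf0 e0 0 p + p.rz.im * (lgv kf0 e0 0 p).im
  | .vx b a z, _, _ => by
      refine ⟨?_, trivial, trivial, ?_⟩
      · simp [PB.gs, lgv]
      · simp [PB.vl, hsv, lgv]
  | .br t d, hCr, hP => by
      obtain ⟨hC1, hC2, hC3⟩ := hCr
      have hPt : t.rz ∈ D1 := hP
      have hPd : d.rz ∈ D1 := ve_D1 hC3
      obtain ⟨i1, i2, i3, i4⟩ := inde hS t hC1 hPt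
      obtain ⟨j1, j2, j3, j4⟩ := inde hS d hC2 hPd
      obtain ⟨e1, e2, e3, e4⟩ := hS d.rz hPd t.rz hPt
      have hV : VL d.bl d.wt d.rz (Lg (uu kf0 e0 0 t d) d.rz + lgv kf0 e0 (kc kf0 d) d) := by
        refine ve_VL hC3 ?_
        have h1 : d.gs sg = -(1 / (2 * π)) * lgv kf0 e0 (kc kf0 d) d := j1
        have h2 : deriv (fun w => sg w t.rz) d.rz =
          -(1 / (2 * π)) * Lg (uu kf0 e0 0 t d) d.rz := e2
        rw [h1, h2]
        ring
      have hI := vt_re hV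
      rw [Complex.add_im] at hI
      refine ⟨?_, ⟨i2, j2, e1⟩, ⟨i3, j3, hV⟩, ?_⟩
      · have h3 : deriv (fun w => sg d.rz w) t.rz =
          -(1 / (2 * π)) * Lg (uu kf0 e0 0 t d) t.rz := e3
        simp only [PB.gs, lgv]
        rw [i1, h3]
        ring
      · have h4 : 2 * π * (sg d.rz t.rz).re =
          hv d.rz t.rz (uu kf0 e0 0 t d) +
            d.rz.im * (Lg (uu kf0 e0 0 t d) d.rz).im +
            t.rz.im * (Lg (uu kf0 e0 0 t d) t.rz).im := e4
        have h5 : 2 * π * (d.vl sg).re =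
          hsv kf0 e0 (kc kf0 d) d + d.rz.im * (lgv kf0 e0 (kc kf0 d) d).im := j4
        simp only [PB.vl, hsv, lgv, PB.rz]
        rw [Complex.add_im]
        simp only [Complex.add_re]
        linear_combination i4 + hI + h5 + h4

theorem cv_valE (hS1 : S_SIG) (hI : S_INV) (hS : EFE) (hGP : GPE) :
    ∀ p : PB, CE p → p.rz ∈ D1 → ∀ (μ : ℤ) (m : Bool), ∃ n : ℤ,
      (flatW (agW kf0 e0) kf0 μ m 0 p).complexVolume = Complex.I * 2 * π * p.vl sg +
        Complex.I / 2 * p.rz * lgv kf0 e0 0 p -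
        π * ((if p.nc = 0 then 0 else μ : ℤ) : ℂ) * (p.rz + π) +
        (π : ℂ) ^ 2 / 2 * ((p.shape.ws - p.wt + (if p.nc = 0 then 0 else (m.toNat : ℤ)) : ℤ) : ℂ) +
        n * (π : ℂ) ^ 2
  | .vx b a z, _, _, μ, m => by
    refine ⟨0, ?_⟩
    simp [flatW, FlatTree.complexVolume, PB.vl, lgv, PB.nc, PB.shape, Tb.ws, PB.wt]
  | .br t d, hCr, hP, μ, m => by
    obtain ⟨-, ⟨-, -, hHG⟩, ⟨-, -, hVL⟩, -⟩ := inde hS (.br t d) hCr hP
    obtain ⟨hC1, hC2, hC3⟩ := hCr
    have hPt : t.rz ∈ D1 := hP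
    have hPd : d.rz ∈ D1 := ve_D1 hC3
    obtain ⟨k1, e1⟩ := cv_valE hS1 hI hS hGP t hC1 hPt μ m
    obtain ⟨k2, e2⟩ := cv_valE hS1 hI hS hGP d hC2 hPd 0 false
    have hG := hGP d.rz hPd t.rz hPt
    have hHG' := hw_symm hHG
    change GP d.rz t.rz (uu kf0 e0 0 t d) (sg d.rz t.rz) = _ at hG
    unfold GP at hG
    rw [(lrW hHG).2.1, (lrW hHG').2.1] at hG
    obtain ⟨k3, e3⟩ := std_termW hS1 hI (S := sg d.rz t.rz) hHG'
      (by linear_combination hG)
      (if t.nc = 0 then m else false) (odd d.wt) (if t.nc = 0 then μ else 0) (if d.bl then 0 else 1)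
    obtain ⟨k4, e4⟩ := odd_mod d.wt
    have e4' : (((odd d.wt).toNat : ℕ) : ℂ) = d.wt + 2 * k4 := by exact_mod_cast e4
    obtain ⟨k5, e5⟩ := vertex_val hVL
    refine ⟨k1 + k2 + k3 + k4 + k5, ?_⟩
    have e6 : (flatW (agW kf0 e0) kf0 μ m 0 (.br t d)).complexVolume =
      (flatW (agW kf0 e0) kf0 μ m 0 t).complexVolume +
      (flatW (agW kf0 e0) kf0 0 false 0 d).complexVolume +
      (std (if t.nc = 0 then m else false) (odd d.wt) (if t.nc = 0 then μ else 0)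
        (if d.bl then 0 else 1) (ofFl (fe t.rz (uu kf0 e0 0 t d)))
        (ofFl (fe d.rz (uu kf0 e0 0 t d)))).term := rfl
    rw [e6, e1, e2, e3]
    have hn : (PB.br t d).nc ≠ 0 := by simp [PB.nc]
    rw [if_neg hn, if_neg hn]
    have e9 : (PB.br t d).vl sg = t.vl sg + (vt d.bl d.wt d.rz + d.vl sg +
      sg d.rz t.rz) := rfl
    rw [e9]
    have e10 : lgv kf0 e0 (kc kf0 d) d = lgv kf0 e0 0 d := rfl
    rw [e10] at e5
    simp only [lgv, PB.rz, PB.shape, Tb.ws, PB.wt, Bool.toNat_false]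
    have e7 : (if d.nc = 0 then 0 else (0 : ℤ)) = 0 := by split_ifs <;> rfl
    have e8 : (if d.nc = 0 then 0 else (((0 : ℕ) : ℤ))) = 0 := by split_ifs <;> rfl
    rw [e7, e8]
    by_cases htn : t.nc = 0
    · simp only [htn, if_true]
      push_cast at e5 ⊢
      rw [e4']
      linear_combination e5
    · simp only [htn, if_false, Bool.toNat_false]
      push_cast at e5 ⊢
      rw [e4']
      linear_combination e5

theorem gey : S_GEY := by
  intro hS hGP p hCr hV hnc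
  classical
  have hP : p.rz ∈ D1 := ve_D1 hV
  have hS1 : S_SIG := sig der
  have hI2 : S_INV := inv (ref der) hS1
  obtain ⟨i1, i2, i3, i4⟩ := inde hS p hCr hP
  obtain ⟨k1, e1⟩ := cv_valE hS1 hI2 hS hGP p hCr hP (if p.bl then 0 else 1) (odd p.wt)
  have hE : VL p.bl p.wt p.rz (lgv kf0 e0 0 p) := ve_VL hV i1
  have hI' := vt_re hE
  have hval : 2 * π * (vt p.bl p.wt p.rz + p.vl sg).re = hsv kf0 e0 0 p := by
    rw [Complex.add_re]
    linear_combination hI' + i4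
  have hvol := agv_vol kf0 e0 p 0 i2
  obtain ⟨g1, g2⟩ := agv_fl kf0 e0 0 p i2
  have hang : (agv kf0 e0 0 p).IsAng := by
    refine ⟨agv_isok kf0 e0 p 0 i2 i3, ?_⟩
    rw [agv_wt, agv_bl]
    refine vokw g1 fun hb => ?_
    rw [g2]
    exact vl_im hE hb
  refine ⟨?_, fun t hp => ⟨?_, ?_⟩⟩
  · rw [hval]
    constructor
    · exact ⟨agv kf0 e0 0 p, agv_shape kf0 e0 p 0, hang, hvol⟩
    · rintro W ⟨y, hshape, hy, rfl⟩
      have h1 := vol_LLv kf0 e0 W120.VC.tet p 0 i2 y hshape hy.1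
      have h2 := LLv_eq kf0 e0 p 0 i2 i3 y hshape hy.1
      have h3 := vertex p.bl p.rz p.wt (elv kf0 e0 0 p y) (elv_pos kf0 e0 0 p y hshape hy.1)
        (by rw [elv_map kf0 e0 0 p y hshape, ← (wt_eq p y hshape).1, ← (wt_eq p y hshape).2]
            exact hy.2)
        (by rw [elv_lg kf0 e0 0 p y hshape]; exact hE)
      rw [h3] at h2
      rw [h2] at h1
      linarith
  · obtain ⟨k2, e2⟩ := odd_mod p.wt
    have e2' : (((odd p.wt).toNat : ℕ) : ℂ) = p.wt + 2 * k2 := by exact_mod_cast e2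
    obtain ⟨k3, e3⟩ := vertex_val hE
    have hn : ¬ p.nc = 0 := by omega
    rw [if_neg hn, if_neg hn] at e1
    refine ⟨flatW (agW kf0 e0) kf0 (if p.bl then 0 else 1) (odd p.wt) 0 p, ?_, ?_, ?_,
      flatW_isFlat (agW kf0 e0) kf0 p hnc 0, -1 * k1 - k2 - k3 - 2, ?_⟩
    · rw [flatv_anglesW]
      apply toTb_inj
      rw [← shape_to, toAB_of, agv_shape, hp]
    · rw [flatv_anglesW, ← isAngle_to, toAB_of]
      exact hang
    · rw [flatv_anglesW, ← vol_to, toAB_of, hvol, hval]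
    · rw [e1, hp]
      push_cast at e3 ⊢
      rw [e2']
      linear_combination (-1) * e3 + (2 * (π : ℂ) ^ 2 - (π : ℂ) ^ 2 * (toTb t).ws / 2) *
        Complex.I_sq
  · have key : ∀ x : FlatTree, (x.angles.tree = t ∧ IsAngle x.angles ∧
        vol x.angles = 2 * π * (vt p.bl p.wt p.rz + p.vl sg).re ∧ x.IsFlat) →
        x.angles = ofAB (agv kf0 e0 0 p) := by
      rintro x ⟨x1, x2, x3, x4⟩
      have h := ang_uniqueW kf0 e0 p 0 i2 i3 hE (toAB x.angles) (by rw [shape_to, x1, hp])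
        ((isAngle_to _).2 x2) (by rw [vol_to, x3, hval, hvol])
      rw [← h, of_to]
    intro x x' hx hx'
    obtain ⟨n, h1⟩ := root_valW hS1 hI2 kf0 e0 p 0 i2 hnc x (key x hx) hx.2.2.2
    obtain ⟨n', h2⟩ := root_valW hS1 hI2 kf0 e0 p 0 i2 hnc x' (key x' hx') hx'.2.2.2
    refine ⟨n' - n, ?_⟩
    rw [h1, h2]
    push_cast
    ring

end Pool.Agent.N765.EK
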